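import Pool.Agent.W423.NC.Defs

set_option autoImplicit false

/-! The property of the kernel. -/

namespace Pool.Agent.W741.NC

open MvPolynomial Pool.Agent.H628R4.TZ Pool.Agent.W425.SM
open Pool.Agent.H628R4.TP hiding Sh
open Pool.Agent.W525.SM (Sh)
open Pool.Agent.W423.MG Pool.Agent.W423.NC

variable {r N P : ℕ}

/-- removing a vertex `j0` of height one over the others -/
lemma idxC_insert (g : Fin r → Fin (P+1)) (v : Fin r → Fin N → ℕ) (i : Fin N)
    (J : Finset (Fin r)) (j0 : Fin r)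
    (hj0 : j0 ∉ J) (h1 : v j0 i = 1) (h0 : ∀ j ∈ J, v j i = 0) :
    idxC g v (insert j0 J) = idxC g v J := by
  let π : (↥(insert j0 J) → ℤ) →+ (J → ℤ) :=
    { toFun := fun f j => f ⟨j.1, Finset.mem_insert_of_mem j.2⟩
      map_zero' := rfl
      map_add' := fun _ _ => rfl }
  have hπ : Function.Surjective π := by
    intro g
    refine ⟨fun j => if h : (j : Fin r) ∈ J then g ⟨j, h⟩ else 0, ?_⟩
    funext j
    simp [π]
  rw [idxC, idxC, ← AddSubgroup.index_comap_of_surjective _ hπ]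
  congr 1
  ext f
  rw [AddSubgroup.mem_comap]
  constructor
  · rintro ⟨p, rfl⟩
    exact ⟨p, rfl⟩
  · rintro ⟨p, hp⟩
    refine ⟨p + (Pi.single i (f ⟨j0, Finset.mem_insert_self _ _⟩ -
      evC g v (insert j0 J) p ⟨j0, Finset.mem_insert_self _ _⟩), 0), ?_⟩
    funext j
    rw [map_add, Pi.add_apply]
    obtain ⟨j, hj⟩ := j
    rcases Finset.mem_insert.1 hj with rfl | hj'
    · simp [evC, Pi.single_apply, h1]
    · have h2 := congrFun hp ⟨j, hj'⟩
      have h3 : evC g v (insert j0 J) p ⟨j, hj⟩ = f ⟨j, hj⟩ := h2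
      rw [h3]
      simp [evC, Pi.single_apply, h0 j hj']

lemma ker_mem (g : Fin r → Fin (P+1)) (v : Fin r → Fin N → ℕ) (l : Fin N)
    (I : Ideal (MvPolynomial (Fin r) ℂ)) (j0 : Fin r) (hv1 : v j0 l = 1)
    (hX : ∀ j, j ≠ j0 → 0 < v j l → (X j : MvPolynomial (Fin r) ℂ) ∈ I)
    (hX0 : (X j0 + 1 : MvPolynomial (Fin r) ℂ) ∈ I) :
    kerN g v * E1 g ∈ I := by
  by_cases hm : g j0 ∈ mulS g
  · refine Ideal.mul_mem_right _ _ ?_
    unfold kerN
    refine Ideal.mul_mem_right _ _ ?_
    have hS : j0 ∈ Finset.univ.filter fun j => g j ∈ mulS g := by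
      rw [Finset.mem_filter]
      exact ⟨Finset.mem_univ _, hm⟩
    rw [← Finset.insert_erase hS,
      Finset.sum_powerset_insert (Finset.notMem_erase j0 _), ← Finset.sum_add_distrib]
    refine Ideal.sum_mem _ fun J hJ => ?_
    have hj0J : j0 ∉ J := fun h => Finset.notMem_erase j0 _ ((Finset.mem_powerset.1 hJ) h)
    by_cases hex : ∃ j ∈ J, 0 < v j l
    · obtain ⟨j, hj, hv⟩ := hex
      have hne : j ≠ j0 := fun h => hj0J (h ▸ hj)
      refine Ideal.add_mem _ ?_ ?_
      · refine Ideal.mul_mem_left _ _ ?_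
        rw [← Finset.mul_prod_erase J _ hj]
        exact Ideal.mul_mem_right _ _ (hX j hne hv)
      · refine Ideal.mul_mem_left _ _ ?_
        rw [← Finset.mul_prod_erase (insert j0 J) _ (Finset.mem_insert_of_mem hj)]
        exact Ideal.mul_mem_right _ _ (hX j hne hv)
    · push Not at hex
      rw [idxC_insert g v l J j0 hj0J hv1 fun j hj => Nat.le_zero.1 (hex j hj),
        Finset.prod_insert hj0J]
      have h5 : C ((idxC g v J : ℂ) ^ 2) * ∏ j ∈ J, X j +
          C ((idxC g v J : ℂ) ^ 2) * (X j0 * ∏ j ∈ J, X j) =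
          (C ((idxC g v J : ℂ) ^ 2) * ∏ j ∈ J, X j) * (X j0 + 1 : MvPolynomial (Fin r) ℂ) := by
        ring
      rw [h5]
      exact Ideal.mul_mem_left _ _ hX0
  · refine Ideal.mul_mem_left _ _ ?_
    unfold E1
    have hS : j0 ∈ Finset.univ.filter fun j => g j ∉ mulS g := by
      rw [Finset.mem_filter]
      exact ⟨Finset.mem_univ _, hm⟩
    rw [← Finset.mul_prod_erase _ _ hS]
    exact Ideal.mul_mem_right _ _ hX0

theorem taskKer1 : Pool.Agent.W423.NC.TaskKer1 := by
  intro r N P g v η hη κ i hκ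
  induction i using Fin.addCases with
  | left k =>
    exfalso
    have h1 : wh (N := N) η (Fin.castAdd N k) = η k := by
      unfold wh
      rw [Fin.append_left]
    rw [h1] at hκ
    have h2 := hη k
    rw [← hκ] at h2
    obtain ⟨h3, h4⟩ := h2
    have h5 : (0 : ℕ) < ∑ j, κ j * vh g v j (Fin.castAdd N k) := by exact_mod_cast h3
    have h6 : ∑ j, κ j * vh g v j (Fin.castAdd N k) < 1 := by exact_mod_cast h4
    omega
  | right l =>
    have h1 : wh (N := N) η (Fin.natAdd (P+1) l) = 1 := by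
      unfold wh
      rw [Fin.append_right]
    rw [h1] at hκ
    have h2 : ∑ j, κ j * vh g v j (Fin.natAdd (P+1) l) = 1 := by exact_mod_cast hκ
    have hv0 : vh g v 0 (Fin.natAdd (P+1) l) = 0 := by
      unfold vh
      rw [Fin.cons_zero, Fin.append_right]
    have hvs : ∀ j : Fin r, vh g v j.succ (Fin.natAdd (P+1) l) = v j l := by
      intro j
      unfold vh
      rw [Fin.cons_succ, Fin.append_right]
    rw [Fin.sum_univ_succ, hv0, mul_zero, zero_add] at h2
    simp only [hvs] at h2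
    have h3 : ∃ j0 : Fin r, κ j0.succ * v j0 l ≠ 0 := by
      by_contra hcon
      push Not at hcon
      rw [Finset.sum_eq_zero fun j _ => hcon j] at h2
      exact zero_ne_one h2
    obtain ⟨j0, hj0⟩ := h3
    have h4 : κ j0.succ * v j0 l + ∑ j ∈ Finset.univ.erase j0, κ j.succ * v j l = 1 := by
      rw [Finset.add_sum_erase Finset.univ (fun j : Fin r => κ j.succ * v j l)
        (Finset.mem_univ j0)]
      exact h2
    have h5 : κ j0.succ * v j0 l = 1 := by omega
    have h6 : ∀ j, j ≠ j0 → κ j.succ * v j l = 0 := by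
      intro j hj
      have h7 : ∑ j ∈ Finset.univ.erase j0, κ j.succ * v j l = 0 := by omega
      exact (Finset.sum_eq_zero_iff.1 h7) j (Finset.mem_erase.2 ⟨hj, Finset.mem_univ j⟩)
    have hk1 : κ j0.succ = 1 := Nat.eq_one_of_mul_eq_one_right h5
    have hv1 : v j0 l = 1 := Nat.eq_one_of_mul_eq_one_left h5
    set I0 := Ideal.span {p : MvPolynomial (Fin r) ℂ | ∃ j : Fin r, 0 < v j l ∧
      p = X j + C ((κ j.succ : ℕ) : ℂ)} with hI0
    have hX : ∀ j, j ≠ j0 → 0 < v j l → (X j : MvPolynomial (Fin r) ℂ) ∈ I0 := by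
      intro j hj hv
      have hk : κ j.succ = 0 := by
        rcases Nat.mul_eq_zero.1 (h6 j hj) with h | h
        · exact h
        · omega
      refine Ideal.subset_span ⟨j, hv, ?_⟩
      rw [hk]
      simp
    have hX0 : (X j0 + 1 : MvPolynomial (Fin r) ℂ) ∈ I0 := by
      refine Ideal.subset_span ⟨j0, by omega, ?_⟩
      rw [hk1]
      simp
    have hmem := ker_mem g v l I0 j0 hv1 hX hX0
    rw [← map_mul]
    have hmap := Ideal.mem_map_of_mem (rn (r := r)).toRingHom hmem
    refine (Ideal.map_le_iff_le_comap.2 ?_) hmap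
    rw [hI0, Ideal.span_le]
    rintro p ⟨j, hj, rfl⟩
    refine Ideal.subset_span ⟨j.succ, by rw [hvs]; exact hj, ?_⟩
    show (rn (r := r)) (X j + C ((κ j.succ : ℕ) : ℂ)) = _
    unfold rn
    rw [map_add, rename_X, rename_C]

end Pool.Agent.W741.NC
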